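import Pool.Agent.Helper33.RS.Defs

/-!
# RS-L2: the cones over the facets have total volume at most the volume of the polyhedron
-/

set_option autoImplicit false
namespace Pool.Agent.Helper96.RS
open MeasureTheory Metric Set
open Pool.Agent.Helper59.Pack Pool.Agent.Helper69.MD Pool.Agent.Helper33.RS
open scoped ENNReal Pointwise RealInnerProductSpace

theorem poly_closed (U : Finset E3) : IsClosed (poly U) := by
  have e : poly U = ⋂ u ∈ U, {x : E3 | ⟪u, x⟫ ≤ 1} := by
    ext x
    simp [poly]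
  rw [e]
  exact isClosed_biInter (fun u _ => isClosed_le (continuous_const.inner continuous_id) continuous_const)

theorem face_closed (U : Finset E3) (u : E3) : IsClosed (face U u) :=
  (poly_closed U).inter (isClosed_eq (continuous_const.inner continuous_id) continuous_const)

theorem face_compact {U : Finset E3} (hb : Bornology.IsBounded (poly U)) (u : E3) : IsCompact (face U u) :=
  Metric.isCompact_of_isClosed_isBounded (face_closed U u) (hb.subset (fun _ hx => hx.1))

theorem cone_eq (U : Finset E3) (u : E3) : cone U u = (fun p : ℝ × E3 => p.1 • p.2) '' (Icc (0 : ℝ) 1 ×ˢ face U u) := by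
  ext x
  constructor
  · rintro ⟨r, hr, y, hy, rfl⟩
    exact ⟨(r, y), ⟨hr, hy⟩, rfl⟩
  · rintro ⟨⟨r, y⟩, ⟨hr, hy⟩, rfl⟩
    exact ⟨r, hr, y, hy, rfl⟩

theorem compact_cone {U : Finset E3} (hb : Bornology.IsBounded (poly U)) (u : E3) : IsCompact (cone U u) := by
  rw [cone_eq]
  exact (isCompact_Icc.prod (face_compact hb u)).image (continuous_fst.smul continuous_snd)

theorem measurable_cone {U : Finset E3} (hb : Bornology.IsBounded (poly U)) (u : E3) : MeasurableSet (cone U u) :=
  (compact_cone hb u).measurableSet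

theorem cone_sub (U : Finset E3) (u : E3) : cone U u ⊆ poly U := by
  rintro x ⟨r, hr, y, hy, rfl⟩ v hv
  rw [inner_smul_right]
  have h1 : ⟪v, y⟫ ≤ 1 := hy.1 v hv
  have h2 : r * ⟪v, y⟫ ≤ r * 1 := mul_le_mul_of_nonneg_left h1 hr.1
  linarith [hr.2]

theorem cone_inter {U : Finset E3} {u v : E3} (hu : u ∈ U) (hv : v ∈ U) : cone U u ∩ cone U v ⊆ {x | ⟪u - v, x⟫ = 0} := by
  have key : ∀ {u v : E3}, v ∈ U → ∀ x ∈ cone U u, ⟪v, x⟫ ≤ ⟪u, x⟫ := by
    rintro u v hv x ⟨r, hr, y, hy, rfl⟩
    rw [inner_smul_right, inner_smul_right, hy.2]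
    exact mul_le_mul_of_nonneg_left (hy.1 v hv) hr.1
  rintro x ⟨h1, h2⟩
  show ⟪u - v, x⟫ = 0
  rw [inner_sub_left]
  linarith [key hv x h1, key hu x h2]

theorem plane_null {n : E3} (hn : n ≠ 0) : volume {x : E3 | ⟪n, x⟫ = 0} = 0 := by
  have e : {x : E3 | ⟪n, x⟫ = 0} = ((ℝ ∙ n)ᗮ : Submodule ℝ E3) := by
    ext x
    exact (Submodule.mem_orthogonal_singleton_iff_inner_right).symm
  rw [e]
  apply Measure.addHaar_submodule
  intro h
  have h1 : n ∈ (ℝ ∙ n)ᗮ := by rw [h]; trivial
  rw [Submodule.mem_orthogonal_singleton_iff_inner_right] at h1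
  exact hn (inner_self_eq_zero.1 h1)

theorem cones_le {U : Finset E3} (hb : Bornology.IsBounded (poly U)) : (∑ u ∈ U, volume (cone U u)) ≤ volume (poly U) := by
  rw [← measure_biUnion_finset₀ (s := U) (f := cone U)]
  · exact measure_mono (iUnion₂_subset fun u _ => cone_sub U u)
  · intro u hu v hv huv
    exact measure_mono_null (cone_inter hu hv) (plane_null (sub_ne_zero.2 huv))
  · intro u _
    exact (measurable_cone hb u).nullMeasurableSet

end Pool.Agent.Helper96.RS
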